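import Pool.Agent.H7.LP.Targets3

/-!
# MP_5607ba_lc, row ADG of lpq_modules: admissible quotients
(after Pool/Agent/H91/LP/ADM.lean)
-/

set_option autoImplicit false

open Set Filter Topology

namespace Pool.Agent.H31.LPQ

open Pool.Agent.H7.LP Pool.Agent.H7.LQ

theorem pf_ADG : T_ADG := by
  intro G _ _ _ L k' k K' K a g' g hK' hK hA hg' hg
  have hH' : g' ∈ L.H k' := hK' hg'
  have hH : g ∈ L.H k := hK hg
  have key : ∀ u : G, (g' * a * g)⁻¹ * u * (g' * a * g) =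
      g⁻¹ * (a⁻¹ * (g'⁻¹ * u * g') * a) * g := fun u => by group
  refine ⟨⟨fun u hu => ?_, fun u hu => ?_, fun u hu => ?_⟩, ?_⟩
  · rw [key]
    have h1 : g'⁻¹ * u * g' ∈ K' := K'.mul_mem (K'.mul_mem (K'.inv_mem hg') hu) hg'
    exact K.mul_mem (K.mul_mem (K.inv_mem hg) (hA.mK _ h1)) hg
  · rw [key]
    have h1 : g'⁻¹ * u * g' ∈ L.R k' := by
      have := (L.piece k').nor g'⁻¹ ((L.H _).inv_mem hH') u hu
      rwa [inv_inv] at this
    have h2 := (L.piece k).nor g⁻¹ ((L.H _).inv_mem hH) _ (hA.mR _ h1)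
    rwa [inv_inv] at h2
  · rw [key]
    have h1 : g'⁻¹ * u * g' ∈ L.H k' :=
      (L.H _).mul_mem ((L.H _).mul_mem ((L.H _).inv_mem hH') hu) hH'
    exact (L.H _).mul_mem ((L.H _).mul_mem ((L.H _).inv_mem hH) (hA.mH _ h1)) hH
  · have h1 : a⁻¹ * (g' * a * g) = (a⁻¹ * g' * a) * g := by group
    rw [h1]
    exact K.mul_mem (hA.mK g' hg') hg

end Pool.Agent.H31.LPQ
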